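import Pool.Agent.Helper97.Csq.Step3

/-!
# `□(ω₂, ω)` refutes `Refl(ℵ₀, S^{ω₂}_ω)`

Negative answer to Q1 of MP_ace702_lc, and its generalisation: for every regular uncountable
cardinal `κ`, the principle `□(κ⁺, < κ)` implies that `Refl(< κ, S)` fails for every stationary
`S ⊆ κ⁺`.

Idea of the proof.  Let `𝒞` be a `□(κ⁺, < κ)`-sequence, `S` stationary.
* Step 1: for some `γ₀`, for all `α > γ₀`, `C ∈ 𝒞 α`, stationarily many `β ∈ S` have no
  `D ∈ 𝒞 β` continuing `C` (otherwise there is a thread).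
* The root of a club `D` is the pair `(α, D ∩ α)`, `α` the first accumulation point of `D` above
  `γ₀`.  Step 2: an Ulam matrix argument colours all roots with `κ` colours so that for every
  colour `i` the set `R_i` of those `β ∈ S` such that `𝒞 β` has no root of colour `i` is
  stationary; here one uses that `𝒞 β` has fewer than `κ` roots.
* Step 3: as `|𝒞 β| < κ`, the colours of the roots of `𝒞 β` are bounded below `κ`, by a fixed
  `ξ` for stationarily many `β ∈ S`.  These `β` together with the `R_i`, `i < ξ`, do not reflect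
  simultaneously: the colour of the root of any `E ∈ 𝒞 δ` is below `ξ`.
-/

namespace Pool.Agent.Results.MP_ace702_lc.SquareNoReflection

open Pool.Agent.Helper97.Csq Cardinal Ordinal

theorem result :
    (Square (ω_ 2) (ℵ_ 1) → ¬ Refl (ω_ 2) (ℵ_ 1) {α | α < ω_ 2 ∧ α.cof = ℵ₀}) ∧
    ∀ κ : Cardinal.{0}, κ.IsRegular → ℵ₀ < κ →
      Square (Order.succ κ).ord (Cardinal.lift.{1} κ) →
      ∀ S, StatIn (Order.succ κ).ord S → ¬ Refl (Order.succ κ).ord (Cardinal.lift.{1} κ) S := by
  refine ⟨?_, fun κ hκ hκ0 hsq S hS => not_refl hκ hκ0 hsq hS⟩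
  have h1 : (ℵ_ 1 : Cardinal.{0}).IsRegular := isRegular_aleph_one
  have h2 : (Order.succ (ℵ_ 1 : Cardinal.{0})).ord = ω_ 2 := by
    rw [succ_aleph, ord_aleph]
    congr 1
    exact one_add_one_eq_two
  have h3 : Cardinal.lift.{1} (ℵ_ 1 : Cardinal.{0}) = ℵ_ 1 := by
    rw [lift_aleph, Ordinal.lift_one]
  have hS := statIn_cof (κ := ℵ_ 1) (μ := ℵ₀) h1.aleph0_le isRegular_aleph0 h1.aleph0_le
  have key := fun h => not_refl h1 aleph0_lt_aleph_one h hS
  rw [h2, h3] at key
  exact key

end Pool.Agent.Results.MP_ace702_lc.SquareNoReflection
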